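import Pool.Agent.Helper53.CTR.Goals

/-!
# Project CTR (MP_8b4d68_lc), packet ELE: elementary steps
-/

namespace Pool.Agent.Helper51.CTR

open Pool.Agent.Helper53.CTR
open Pool.Agent.Helper1.TE (Gad app Ch cif)
open Finset

theorem sub_ne (q : ℕ) (x : De) (n d : ℕ) (hx : x.k ≠ 0) :
    sub q x n d = if d = 0 then x else idle := by
  unfold sub cif
  rw [if_neg hx]

theorem run_zero {Z : Type} (g : Gad Z) (tst : ℕ → ℕ) (r : ℕ → ℕ → ℕ → ℕ) (q c : ℕ) (x : De)
    (s s' : (ℕ → Z) × ℕ) : Run g tst r q c x 0 s s' ↔
      ∃ a < g.K, ∃ y < g.K, exec g tst r c x a y s = some s' := by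
  unfold Run
  rw [pow_zero]
  constructor
  · intro h
    cases h with
    | succ a b ha hb h h' =>
      cases h with
      | zero => exact ⟨a, ha, b, hb, h'⟩
  · rintro ⟨a, ha, b, hb, h⟩
    exact Ch.succ a b ha hb (Ch.zero s) h

theorem run_idle (hB : Blocks) {Z : Type} (g : Gad Z) (tst : ℕ → ℕ) (r : ℕ → ℕ → ℕ → ℕ)
    (q c : ℕ) (hK : 1 ≤ g.K) (n : ℕ) : ∀ s s' : (ℕ → Z) × ℕ,
    Run g tst r q c idle n s s' ↔ s' = s := by
  induction n with
  | zero =>
    intro s s'
    rw [run_zero]
    constructor
    · rintro ⟨a, -, y, -, h⟩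
      exact (Option.some.inj h).symm
    · rintro rfl
      exact ⟨0, by omega, 0, by omega, rfl⟩
  | succ n ih =>
    intro s s'
    rw [hB]
    have hsub : ∀ d, sub q idle n d = idle := by
      intro d
      rw [sub_ne q idle n d (by decide)]
      split_ifs <;> rfl
    simp only [hsub, ih]
    constructor
    · rintro ⟨f, h0, h9, hf⟩
      rw [← h9, hf 8 (by norm_num), hf 7 (by norm_num), hf 6 (by norm_num), hf 5 (by norm_num),
        hf 4 (by norm_num), hf 3 (by norm_num), hf 2 (by norm_num), hf 1 (by norm_num),
        hf 0 (by norm_num), h0]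
    · rintro rfl
      exact ⟨fun _ => s', rfl, rfl, fun _ _ => rfl⟩

theorem gELE : GoalELE := by
  intro hB
  refine ⟨?_, ?_, ?_, ?_⟩
  · intro Z g tst r q c x n s s' hK hx
    rcases hx with rfl | hx
    · exact run_zero g tst r q c x s s'
    · induction n generalizing s s' with
      | zero => exact run_zero g tst r q c x s s'
      | succ n ih =>
        rw [hB]
        have h0 : sub q x n 0 = x := by rw [sub_ne q x n 0 hx, if_pos rfl]
        have h1 : ∀ d, 1 ≤ d → sub q x n d = idle := by
          intro d hd
          rw [sub_ne q x n d hx, if_neg (by omega)]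
        constructor
        · rintro ⟨f, f0, f9, hf⟩
          have p0 := hf 0 (by norm_num)
          rw [h0, ih, f0] at p0
          have hs : ∀ d, 1 ≤ d → d < 9 → f (d + 1) = f d := by
            intro d hd hd9
            have := hf d hd9
            rwa [h1 d hd, run_idle hB g tst r q c hK] at this
          have e : f 9 = f 1 := by
            rw [hs 8 (by norm_num) (by norm_num), hs 7 (by norm_num) (by norm_num),
              hs 6 (by norm_num) (by norm_num), hs 5 (by norm_num) (by norm_num),
              hs 4 (by norm_num) (by norm_num), hs 3 (by norm_num) (by norm_num),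
              hs 2 (by norm_num) (by norm_num), hs 1 (by norm_num) (by norm_num)]
          rw [← f9, e]
          exact p0
        · intro h
          refine ⟨fun d => if d = 0 then s else s', rfl, rfl, ?_⟩
          intro d hd
          by_cases hd0 : d = 0
          · subst hd0
            rw [h0, ih]
            exact h
          · rw [h1 d (by omega), run_idle hB g tst r q c hK]
            simp only [hd0, if_false, show d + 1 ≠ 0 by omega]
  · intro q m u v i T d hu
    have h1 : ((q + 2) * m + (u + 1)) % (q + 2) = u + 1 := by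
      rw [Nat.mul_add_mod, Nat.mod_eq_of_lt (by omega)]
    unfold sub
    rw [h1]
    unfold cif
    rw [if_pos (show (nod v i T).k = 0 from rfl), if_neg (by omega), if_neg (by omega)]
    rfl
  · intro q m v i T d
    have h1 : ((q + 2) * m) % (q + 2) = 0 := Nat.mul_mod_right _ _
    have h2 : ((q + 2) * m) / (q + 2) = m := Nat.mul_div_cancel_left _ (by omega)
    unfold sub
    rw [h1, h2]
    unfold cif
    rw [if_pos (show (nod v i T).k = 0 from rfl), if_neg (by omega), if_pos rfl]
    rfl
  · intro q m v i T d
    have h1 : ((q + 2) * m + (q + 1)) % (q + 2) = q + 1 := by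
      rw [Nat.mul_add_mod, Nat.mod_eq_of_lt (by omega)]
    unfold sub
    rw [h1]
    unfold cif
    rw [if_pos (show (nod v i T).k = 0 from rfl), if_pos (by omega)]
    rfl

end Pool.Agent.Helper51.CTR
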