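import Pool.Agent.Helper53.CTR.Goals

/-!
# Project CTR (MP_8b4d68_lc), packet VX: block roots
-/

namespace Pool.Agent.Helper51.CTR

open Pool.Agent.Helper53.CTR
open Pool.Agent.Helper1.TE (Gad app Ch cif)
open Finset

section

variable {Z : Type} (g : Gad Z) (tst : ℕ → ℕ) (r : ℕ → ℕ → ℕ → ℕ) (c : ℕ)

theorem ex_nod (v i T a y : ℕ) (s : (ℕ → Z) × ℕ) :
    exec g tst r c (nod v i T) a y s =
      (app g tst T (r v (s.2 % 2 ^ c) 0) (s.1 i)).map fun z => (Function.update s.1 i z, s.2) := rfl

theorem ex_hd (a y : ℕ) (s : (ℕ → Z) × ℕ) :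
    exec g tst r c (2, 0, 0, 0, 0, 1) a y s =
      some (Function.update s.1 0 (g.hd (s.2 % 2 ^ c) (s.1 0)), s.2) := rfl

theorem ex_un (a y : ℕ) (s : (ℕ → Z) × ℕ) :
    exec g tst r c (2, 0, 0, 0, 0, 2) a y s =
      (g.un (s.2 % 2 ^ c) (s.1 0)).map fun z => (Function.update s.1 0 z, s.2) := rfl

theorem ex_idle (a y : ℕ) (s : (ℕ → Z) × ℕ) : exec g tst r c idle a y s = some s := rfl

end

theorem gVX : GoalVX := by
  intro hB hE Z g hg tst r q c hr hc
  have hK : 1 ≤ g.K := hg.K_pos
  have hpc : 0 < 2 ^ c := by positivity
  -- elementary steps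
  have el : ∀ (x : De) (n : ℕ) (s s' : (ℕ → Z) × ℕ) (F : Option ((ℕ → Z) × ℕ)),
      (n = 0 ∨ x.k ≠ 0) → (∀ a y, exec g tst r c x a y s = F) →
      (Run g tst r q c x n s s' ↔ F = some s') := by
    intro x n s s' F hx hF
    rw [hE.1 g tst r q c x n s s' hK hx]
    constructor
    · rintro ⟨a, -, y, -, h⟩
      rw [← h, hF]
    · intro h
      exact ⟨0, by omega, 0, by omega, by rw [hF, h]⟩
  refine ⟨?_, ?_⟩
  · intro v T C A s' hV
    rw [Nat.mul_zero, el _ 0 _ _ _ (Or.inl rfl) (fun a y => ex_nod g tst r c v _ T a y (C, A)),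
      Option.map_eq_some_iff]
    constructor
    · rintro ⟨z, h1, h2⟩
      exact ⟨z, h1, h2.symm⟩
    · rintro ⟨z, h1, h2⟩
      exact ⟨z, h1, h2.symm⟩
  · intro m hKX hKC v T C A s' hV
    set i := 2 * q + 1 + (m + 1) % 2 with hi
    have hi0 : i ≠ 0 := by omega
    set x := A % 2 ^ c with hx
    have hxK : x < g.K := lt_of_lt_of_le (Nat.mod_lt _ hpc) hc
    have hn : (q + 2) * (m + 1) = ((q + 2) * m + (q + 1)) + 1 := by ring
    rw [hn, hB]
    simp only [hE.2.2.2]
    set C' := Function.update C 0 (g.hd x (C 0)) with hC'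
    have hV' : ∀ j, g.V (C' j) := by
      intro j
      by_cases hj : j = 0
      · subst hj
        rw [hC', Function.update_self]
        exact hg.hd_V x hxK _ (hV 0)
      · rw [hC', Function.update_of_ne hj]
        exact hV j
    have hC'0 : C' 0 = g.hd x (C 0) := by rw [hC', Function.update_self]
    have hC'i : C' i = C i := by rw [hC', Function.update_of_ne hi0]
    have hupd : ∀ (z w : Z), Function.update (Function.update (Function.update C' i z) 0 w) 0 (C 0)
        = Function.update C i z := by
      intro z w
      funext j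
      by_cases hj : j = 0
      · subst hj
        rw [Function.update_self, Function.update_of_ne hi0.symm]
      · rw [Function.update_of_ne hj, Function.update_of_ne hj]
        by_cases hji : j = i
        · subst hji
          rw [Function.update_self, Function.update_self]
        · rw [Function.update_of_ne hji, Function.update_of_ne hji, hC',
            Function.update_of_ne hj]
    have hq0 : 2 * (q - q) = 0 := by simp
    have hidle : ∀ d, 3 ≤ d → phV v i T d = idle := by
      intro d hd
      obtain ⟨e, rfl⟩ := Nat.exists_eq_add_of_le hd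
      unfold phV cif
      rw [if_neg (by omega), if_neg (by omega), if_neg (by omega)]
    constructor
    · rintro ⟨f, h0, h9, hf⟩
      -- phase 0
      have p0 := hf 0 (by norm_num)
      rw [show phV v i T 0 = (2, 0, 0, 0, 0, 1) from rfl,
        el _ _ _ _ _ (Or.inr (by decide)) (fun a y => ex_hd g tst r c a y (f 0)), h0] at p0
      have h1 : f 1 = (C', A) := by
        have := Option.some.inj p0
        rw [← this]
      -- phase 1
      have p1 := hf 1 (by norm_num)
      rw [show phV v i T 1 = nod v i T from rfl, h1] at p1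
      obtain ⟨k1, k2, -, l, l1, l2, l3, l4⟩ := hKX v i T C' A (f 2) hV' (Or.inr hi) p1
      rw [hq0] at l3 l4
      -- phase 2
      have p2 := hf 2 (by norm_num)
      rw [show phV v i T 2 = (2, 0, 0, 0, 0, 2) from rfl,
        el _ _ _ _ _ (Or.inr (by decide)) (fun a y => ex_un g tst r c a y (f 2)),
        Option.map_eq_some_iff] at p2
      obtain ⟨z0, u1, u2⟩ := p2
      rw [k1, l3, hC'0] at u1
      have hall : ∀ a ∈ l, a = x := hg.sound6 x hxK l l1 l2 (C 0) (hV 0) (by
        rw [show A % 2 ^ c = x from rfl] at u1
        rw [u1]; rfl)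
      obtain ⟨z, m1, m2⟩ := l4 x hxK hall
      have hl : l = List.replicate 6 x := List.eq_replicate_iff.mpr ⟨l1, hall⟩
      rw [hl, show A % 2 ^ c = x from rfl, hg.ok6 x hxK (C 0) (hV 0)] at u1
      have hz0 : z0 = C 0 := (Option.some.inj u1).symm
      have h3 : f 3 = (Function.update C i z, A) := by
        rw [show f (2 + 1) = f 3 from rfl] at u2
        rw [← u2, hz0, m2, hupd, k1]
      have hstep : ∀ d, 3 ≤ d → d < 9 → f (d + 1) = f d := by
        intro d hd hd9
        have p := hf d hd9
        rw [hidle d hd, el _ _ _ _ _ (Or.inr (by decide))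
          (fun a y => ex_idle g tst r c a y (f d))] at p
        exact (Option.some.inj p).symm
      have h9' : f 9 = f 3 := by
        rw [hstep 8 (by norm_num) (by norm_num), hstep 7 (by norm_num) (by norm_num),
          hstep 6 (by norm_num) (by norm_num), hstep 5 (by norm_num) (by norm_num),
          hstep 4 (by norm_num) (by norm_num), hstep 3 (by norm_num) (by norm_num)]
      refine ⟨z, ?_, ?_⟩
      · rw [hC'i] at m1
        exact m1
      · rw [← h9, h9', h3]
    · rintro ⟨z, hz, rfl⟩
      have hz' : app g tst T (seg r (botV r q c m) q v x) (C' i) = some z := by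
        rw [hC'i]; exact hz
      have hrun := hKC v i T C' A x z hV' (Or.inr hi) hxK hz'
      rw [hq0] at hrun
      refine ⟨fun d => if d = 0 then (C, A) else if d = 1 then (C', A) else if d = 2 then
        (Function.update (Function.update C' i z) 0 (shl g (List.replicate 6 x) (C' 0)), A)
        else (Function.update C i z, A), rfl, rfl, ?_⟩
      intro d hd
      rcases Nat.lt_or_ge d 3 with h3 | h3
      · interval_cases d
        · rw [show phV v i T 0 = (2, 0, 0, 0, 0, 1) from rfl,
            el _ _ _ _ _ (Or.inr (by decide)) (fun a y => ex_hd g tst r c a y _)]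
          rfl
        · exact hrun
        · rw [show phV v i T 2 = (2, 0, 0, 0, 0, 2) from rfl,
            el _ _ _ _ _ (Or.inr (by decide)) (fun a y => ex_un g tst r c a y _),
            Option.map_eq_some_iff]
          refine ⟨C 0, ?_, ?_⟩
          · show g.un x (Function.update (Function.update C' i z) 0
              (shl g (List.replicate 6 x) (C' 0)) 0) = some (C 0)
            rw [Function.update_self, hC'0]
            exact hg.ok6 x hxK (C 0) (hV 0)
          · show (Function.update (Function.update (Function.update C' i z) 0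
              (shl g (List.replicate 6 x) (C' 0))) 0 (C 0), A) = (Function.update C i z, A)
            rw [hupd]
      · rw [hidle d h3, el _ _ _ _ _ (Or.inr (by decide))
          (fun a y => ex_idle g tst r c a y _)]
        simp only [show d ≠ 0 by omega, show d ≠ 1 by omega, show d ≠ 2 by omega,
          show d + 1 ≠ 0 by omega, show d + 1 ≠ 1 by omega, show d + 1 ≠ 2 by omega, if_false]

end Pool.Agent.Helper51.CTR
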